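import Pool.Agent.L0h16.Dub.Iso

/-!
# Dubrovin's conjecture: the Stokes matrix determines the form of the central connection matrix

Let `X` be a Fano manifold of positive dimension with semisimple (convergent) quantum cohomology; so
its odd cohomology vanishes (Hertling, Manin, Teleman). Q2 of the problem asks for a full exceptional
collection `(E_j)` and a choice of the point, the line and the ordering with

(a) `s_{ij} = χ(E_i, E_j)` for the Stokes matrix,
(b) `C = C' C''`, where the columns of `C''` are the Chern characters of the `E_j` and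
    `C'(c₁(X) a) = c₁(X) C'(a)`.

We prove that for every exceptional collection `(E_j)` of length `N = dim H^*(X)` and for all choices of
the point, the admissible line and the ordering (a) is *equivalent* to

(b⁺) `C_j = C'(Ch(E_j))`, where `Ch(E) = ∑ (2 π i) ^ p ch_p(E)` is the normalised Chern character, for
    an operator `C'` which commutes with `c₁(X)` and is an isometry from the Euler form
    `∫ a^∨ b Td(X)` to the form `(-2 π) ^ D ∫ a^∨ b exp (π i c₁(X))`.

So in Dubrovin's conjecture the part (b) on the central connection matrix is a consequence of the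
part (a) on the Stokes matrix, once the Chern character is normalised in this way (as it is done in
the later literature), and Q2 is equivalent to its part (a), for each `X` and each `(E_j)` separately.

If `H^*(X)` is generated by `c₁(X)`, so that `N = D + 1` (projective spaces, quadrics of odd dimension, the
Fano threefolds `V_5` and `V_22`, the homogeneous fivefold of `G_2`), then (a) is equivalent to `C_j = κ Ch(E_j)`
for a class `κ` with `κ κ^∨ = (-1) ^ D (2 π) ^ (-D) exp (-π i c₁(X)) Td(X)`. The refined conjecture (the Gamma
conjecture II of Galkin, Golyshev and Iritani) predicts `κ = i ^ D (2 π) ^ (-D/2) Γ_X` up to the sign, where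
the Gamma class satisfies `Γ_X Γ_X^∨ = exp (-π i c₁(X)) Td(X)` (the reflection formula).

The proof. The pairing `(X₊(-z), X₋(z))` is constant, and by the asymptotic behaviour in the opposite
half planes and the admissibility of the line it is the identity matrix. So the continuation of `X₋`
along the circle is `X₋ S⁻¹ Sᵀ`, and the monodromy of `Z` is `(-1) ^ D exp (-2 π i c₁)`. On the other
hand, by the theorem of Riemann and Roch `S⁻¹ Sᵀ` is the matrix of the Serre functor
`(-1) ^ D exp (-c₁)` in the basis `ch(E_j)`, if (a) holds. So `C'` intertwines `exp (-c₁)` and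
`exp (-2 π i c₁)`, and then also `c₁` and `2 π i c₁`. Moreover
`s_{ij} = i ^ D ∫ C_i^∨ C_j exp (π i c₁)`.

The definitions are in `Pool/Agent/L0h16/Dub/Defs.lean` (`Coh`, `Quantum`, `IsMonodromyData`,
`Chern`, `IsExceptional`, `PartA`) and `IsIsometry` is in `Pool/Agent/L0h16/Dub/Iso.lean`.
-/

set_option autoImplicit false

open CategoryTheory Pool.Agent.L0h16.Dub

universe v u'

namespace Pool.Agent.Results.MP_78bf89_ag.ConnectionMatrix

/-- Let `H` be the cohomology of `X` (`Coh`), with its quantum products (`Quantum`), and `𝒟` the
derived category of `X` with the Chern character (`Chern`). Let `(E j)` be an exceptional collection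
of length `N = dim H`, and let `S`, `C` be the Stokes matrix and the central connection matrix
(`IsMonodromyData`) for a semisimple point `t`, an admissible line and a numbering of the canonical
coordinates. Then `S i j = χ(E i, E j)` for all `i`, `j` if and only if there is an operator `C'` on
`H` with `C'(c₁ a) = c₁ C'(a)` for all `a` and `C j = C'(Ch(E j))` for all `j`, which is an isometry.

If `H` is generated by `c₁`, then `S i j = χ(E i, E j)` for all `i`, `j` if and only if for some class `κ` we
have `C j = κ Ch(E j)` for all `j` and `(-1) ^ D (2 π) ^ D κ κ^∨ = exp (-π i c₁) Td`. -/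
theorem result
    {𝒟 : Type u'} [Category.{v} 𝒟] [Preadditive 𝒟] [Linear ℂ 𝒟] [HasShift 𝒟 ℤ]
    {H : Type} [NormedCommRing H] [NormedAlgebra ℂ H] {N : ℕ} (X : Coh H N) (Q : Quantum X)
    (c : Chern 𝒟 X) (E : Fin N → 𝒟) (hE : IsExceptional E)
    (t : H) (𝒮 : ℂ → H →ₗ[ℂ] H) (f : Fin N → H) (u : Fin N → ℂ) (ϕ : ℝ)
    (S : Matrix (Fin N) (Fin N) ℂ) (C : Fin N → H) (h : Q.IsMonodromyData t 𝒮 f u ϕ S C) :
    (PartA S E ↔ ∃ C' : H →ₗ[ℂ] H, (∀ a, C' (X.c₁ * a) = X.c₁ * C' a) ∧
      (∀ j, C j = C' (X.scale (c.ch (E j)))) ∧ IsIsometry X C') ∧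
    (Algebra.adjoin ℂ {X.c₁} = ⊤ →
      (PartA S E ↔ ∃ κ : H, (∀ j, C j = κ * X.scale (c.ch (E j))) ∧
        (-1 : ℂ) ^ X.dim • ((2 * Real.pi : ℂ) ^ X.dim • (κ * X.dual κ)) =
          NormedSpace.exp (-((Real.pi * Complex.I) • X.c₁)) * X.scale X.td)) :=
  ⟨partA_iff h c hE, fun hgen => partA_iff_class h c hE hgen⟩

end Pool.Agent.Results.MP_78bf89_ag.ConnectionMatrix
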