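import Pool.Agent.L0h15.DB.Main

/-!
# MP_78bf89_ag: semisimple quantum cohomology and full exceptional collections, a generated class

`D` consists of the connected smooth projective varieties with the two conditions of Dubrovin's
conjecture. `Question X` says that the two conditions are equivalent for `X`.
-/

set_option autoImplicit false

namespace Pool.Agent.Results.MP_78bf89_ag.GeneratedClass

open Pool.Agent.L0h15.DB

theorem result (D : Data) (hQ : D.Quantum) (hD : D.Derived) :
    (∀ X, D.Class X → D.Question X) ∧
    -- products
    (∀ X Y, D.ProductClass X Y → D.Question (D.prod X Y)) ∧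
    -- the blow-up of a settled variety in a settled subvariety, and projective bundles
    (∀ X Z, D.Class X → D.Class (D.center X Z) →
      (D.Exceptional (D.bl X Z) ↔ D.Exceptional X ∧ D.Exceptional (D.center X Z))) ∧
    (∀ X V, D.Class X → (D.Exceptional (D.proj X V) ↔ D.Exceptional X)) := by
  refine ⟨fun X h => Data.question_of_settled hD (Data.settled_of_class hQ hD h),
    fun X Y h => Data.question_of_settled hD (Data.settled_prod hQ hD h),
    fun X Z h h' => ?_, fun X V h => ?_⟩
  · have q1 := Data.question_of_settled hD (Data.settled_of_class hQ hD h)
    have q2 := Data.question_of_settled hD (Data.settled_of_class hQ hD h')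
    have q3 := Data.question_of_settled hD
      (Data.settled_of_class hQ hD (Data.Class.blow X Z h h'))
    exact ⟨fun he => by
        have := (hQ.blow X Z).1 (q3.2 he)
        exact ⟨q1.1 this.1, q2.1 this.2⟩, fun he => hD.blow X Z he.1 he.2⟩
  · have q1 := Data.question_of_settled hD (Data.settled_of_class hQ hD h)
    have q3 := Data.question_of_settled hD
      (Data.settled_of_class hQ hD (Data.Class.bundle X V h))
    exact ⟨fun he => q1.1 ((hQ.bundle X V).1 (q3.2 he)), fun he => hD.bundle X V he⟩

end Pool.Agent.Results.MP_78bf89_ag.GeneratedClass
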